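import Pool.Agent.H90.STK.StmtsT

/-!
# The rounded slopes of separated directions in a cell are distinct
-/

set_option autoImplicit false

namespace Pool.STK

open Finset Real MeasureTheory
open scoped RealInnerProductSpace
open Pool.Agent.H49.Ent Pool.Agent.H32.Dense
open Pool.Agent.H53.Kak (E tube)
open Pool.Agent.H53.Dns (Mx psl slp)

namespace TDS

lemma hm_pos (d : ℕ) : 0 < hm d := by
  unfold hm
  positivity

/-- Floors at scale `2 ^ (-J)` being equal, the values are close. -/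
lemma close_of_floor {J : ℕ} {x y : ℝ} (h : ⌊2 ^ J * x⌋ = ⌊2 ^ J * y⌋) :
    |x - y| ≤ ((2 : ℝ) ^ J)⁻¹ := by
  have h2 : (0 : ℝ) < 2 ^ J := by positivity
  have h1 := Int.abs_sub_lt_one_of_floor_eq_floor h
  rw [← mul_sub, abs_mul, abs_of_pos h2] at h1
  rw [← one_div, le_div_iff₀ h2]
  linarith

/-- The vector of slopes. -/
lemma slope_vec_le {d : ℕ} {k : Fin (d + 1)} {e e' : E d} (h : e k ≠ 0) (h' : e' k ≠ 0) {b : ℝ}
    (hb : 0 ≤ b) (hs : ∀ l, |slp k e l - slp k e' l| ≤ b) :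
    ‖(e k)⁻¹ • e - (e' k)⁻¹ • e'‖ ≤ ((d : ℝ) + 1) * b := by
  have h1 := Pool.Agent.H32.AKT.norm_le_of_coord (z := (e k)⁻¹ • e - (e' k)⁻¹ • e') hb (by
    intro r
    simp only [PiLp.sub_apply, PiLp.smul_apply, smul_eq_mul]
    rcases Fin.eq_self_or_eq_succAbove k r with hr | ⟨l, hl⟩
    · rw [hr, inv_mul_cancel₀ h, inv_mul_cancel₀ h', sub_self, abs_zero]
      exact hb
    · have h2 := hs l
      rw [hl]
      rw [slp, slp] at h2
      rw [inv_mul_eq_div, inv_mul_eq_div]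
      exact h2)
  push_cast at h1
  exact h1

lemma sep_of_sign {d : ℕ} {k : Fin (d + 1)} {e e' : E d} (he : ‖e‖ = 1) (he' : ‖e'‖ = 1)
    (hs : (0 < e k ∧ 0 < e' k) ∨ (e k < 0 ∧ e' k < 0)) :
    ‖e - e'‖ ≤ 2 * ‖(e k)⁻¹ • e - (e' k)⁻¹ • e'‖ := by
  rcases hs with ⟨h, h'⟩ | ⟨h, h'⟩
  · exact Pool.Agent.H32.AKT.slope_sep he he' h h'
  · have h1 := Pool.Agent.H32.AKT.slope_sep (e := -e) (e' := -e') (j := k)
      (by rw [norm_neg, he]) (by rw [norm_neg, he'])
      (by rw [PiLp.neg_apply]; linarith) (by rw [PiLp.neg_apply]; linarith)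
    have e1 : -e - -e' = -(e - e') := by abel
    rw [e1, norm_neg, PiLp.neg_apply, PiLp.neg_apply, inv_neg, inv_neg, neg_smul_neg,
      neg_smul_neg] at h1
    exact h1

end TDS

open TDS in
theorem tds_thm : TDSStmt := by
  intro d
  have hm0 := hm_pos d
  refine ⟨hm d / (4 * ((d : ℝ) + 1)), by positivity, ?_⟩
  intro δ J hδ hδ1 hJ ι c e k g q hC hsep i i' hii
  by_contra hne
  have h1 := hsep i i' hne
  obtain ⟨b, hb⟩ : ∃ b, b = δ / (4 * ((d : ℝ) + 1)) := ⟨_, rfl⟩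
  have hb0 : 0 ≤ b := by rw [hb]; positivity
  have hs : ∀ l, |slp k (e i) l - slp k (e i') l| ≤ b := by
    intro l
    have h2 : ⌊2 ^ J * dT k e i l⌋ = ⌊2 ^ J * dT k e i' l⌋ := congrFun hii l
    have h3 := (close_of_floor h2).trans hJ
    rw [dT, dT, ← mul_sub, abs_mul, abs_of_pos hm0] at h3
    have h4 : hm d / (4 * ((d : ℝ) + 1)) * δ = hm d * b := by rw [hb]; ring
    rw [h4] at h3
    exact le_of_mul_le_mul_left h3 hm0
  have h5 := slope_vec_le ((hC.mx i).ne (hC.unit i)) ((hC.mx i').ne (hC.unit i')) hb0 hs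
  have h6 := sep_of_sign (k := k) (hC.unit i) (hC.unit i') (by
    rcases hC.sg with h | h
    · exact Or.inl ⟨h i, h i'⟩
    · exact Or.inr ⟨h i, h i'⟩)
  have h7 : ((d : ℝ) + 1) * b = δ / 4 := by
    rw [hb]
    field_simp
  rw [h7] at h5
  linarith

end Pool.STK
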