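import Pool.Agent.H90.STK.StmtsT
import Pool.Agent.H58.STK.MEA

/-!
# The volume of the union of the tubes of a cell
-/

set_option autoImplicit false

namespace Pool.STK

open Finset Real MeasureTheory
open scoped RealInnerProductSpace
open Pool.Agent.H49.Ent Pool.Agent.H32.Dense
open Pool.Agent.H53.Kak (E tube)
open Pool.Agent.H53.Dns (Mx psl slp)

namespace TVL

lemma hm_pos (d : ℕ) : 0 < hm d := by
  unfold hm
  positivity

/-- The cube with rounded point `v`. -/
def cube {d : ℕ} (J : ℕ) (v : Fin d → ℤ) : Set (Fin d → ℝ) := {y | fl J y = v}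

lemma measurable_fl {d : ℕ} (J : ℕ) : Measurable (fl J : (Fin d → ℝ) → (Fin d → ℤ)) := by
  rw [measurable_pi_iff]
  intro l
  exact Int.measurable_floor.comp ((measurable_pi_apply l).const_mul _)

lemma cube_eq {d : ℕ} (J : ℕ) (v : Fin d → ℤ) :
    cube J v = Set.pi Set.univ fun l =>
      Set.Ico ((v l : ℝ) * ((2 : ℝ) ^ J)⁻¹) (((v l : ℝ) + 1) * ((2 : ℝ) ^ J)⁻¹) := by
  have h2 : (0 : ℝ) < 2 ^ J := by positivity
  ext y
  rw [Set.mem_univ_pi]
  constructor
  · intro h l
    have h1 : ⌊2 ^ J * y l⌋ = v l := congrFun h l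
    rw [Int.floor_eq_iff] at h1
    rw [Set.mem_Ico, ← div_eq_mul_inv, ← div_eq_mul_inv, div_le_iff₀ h2, lt_div_iff₀ h2]
    constructor <;> linarith [h1.1, h1.2]
  · intro h
    funext l
    show ⌊2 ^ J * y l⌋ = v l
    have h1 := h l
    rw [Set.mem_Ico, ← div_eq_mul_inv, ← div_eq_mul_inv, div_le_iff₀ h2, lt_div_iff₀ h2] at h1
    rw [Int.floor_eq_iff]
    constructor <;> linarith [h1.1, h1.2]

lemma volume_cube {d : ℕ} (J : ℕ) (v : Fin d → ℤ) :
    volume (cube J v) = ENNReal.ofReal ((((2 : ℝ) ^ J)⁻¹) ^ d) := by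
  rw [cube_eq, Real.volume_pi_Ico]
  have h1 : ∀ l : Fin d, ENNReal.ofReal (((v l : ℝ) + 1) * ((2 : ℝ) ^ J)⁻¹ -
      (v l : ℝ) * ((2 : ℝ) ^ J)⁻¹) = ENNReal.ofReal (((2 : ℝ) ^ J)⁻¹) := by
    intro l
    congr 1
    ring
  rw [Finset.prod_congr rfl fun l _ => h1 l, Finset.prod_const, Finset.card_univ,
    Fintype.card_fin, ENNReal.ofReal_pow (by positivity)]

/-- The slice at time `s`: the points whose rounded point is the one of a line. -/
lemma volume_slice {d : ℕ} {ι : Type} [Fintype ι] {p : ι → ℝ} (hp : IsLaw p) (J : ℕ)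
    (X : ι → Fin d → ℤ) :
    ENNReal.ofReal ((((2 : ℝ) ^ J)⁻¹) ^ d * Real.exp (H p X)) ≤
      volume {y : Fin d → ℝ | ∃ i, fl J y = X i} := by
  classical
  have h1 : {y : Fin d → ℝ | ∃ i, fl J y = X i} = ⋃ v ∈ Finset.univ.image X, cube J v := by
    ext y
    simp only [Set.mem_ofPred_eq, Set.mem_iUnion, Finset.mem_image, Finset.mem_univ, true_and,
      exists_prop, cube]
    constructor
    · rintro ⟨i, hi⟩
      exact ⟨X i, ⟨i, rfl⟩, hi⟩
    · rintro ⟨v, ⟨i, hi⟩, hv⟩
      exact ⟨i, hv.trans hi.symm⟩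
  have h2 : volume (⋃ v ∈ Finset.univ.image X, cube J v) =
      ∑ v ∈ Finset.univ.image X, volume (cube J v) := by
    refine measure_biUnion_finset ?_ ?_
    · intro v _ w _ hvw
      rw [Function.onFun, Set.disjoint_left]
      intro y hy hy'
      exact hvw (hy.symm.trans hy')
    · intro v _
      exact measurable_fl J (measurableSet_singleton v)
  rw [h1, h2, Finset.sum_congr rfl fun v _ => volume_cube J v, Finset.sum_const, nsmul_eq_mul]
  have h3 : Real.exp (H p X) ≤ ((Finset.univ.image X).card : ℝ) := by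
    have h4 := H_le_log_card hp.nonneg hp.sum_one X (Finset.univ.image X)
      (fun ω _ => Finset.mem_image_of_mem _ (Finset.mem_univ ω))
    have h5 : (0 : ℝ) < ((Finset.univ.image X).card : ℝ) := by
      by_contra hcon
      have h6 : (Finset.univ.image X).card = 0 := by
        have := Nat.cast_nonneg (α := ℝ) (Finset.univ.image X).card
        have h7 : ((Finset.univ.image X).card : ℝ) = 0 := by linarith
        exact_mod_cast h7
      rw [Finset.card_eq_zero, Finset.image_eq_empty] at h6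
      have h8 := hp.sum_one
      rw [h6, Finset.sum_empty] at h8
      exact zero_ne_one h8
    rwa [← Real.le_log_iff_exp_le h5]
  calc ENNReal.ofReal ((((2 : ℝ) ^ J)⁻¹) ^ d * Real.exp (H p X)) ≤
      ENNReal.ofReal (((Finset.univ.image X).card : ℝ) * (((2 : ℝ) ^ J)⁻¹) ^ d) := by
        apply ENNReal.ofReal_le_ofReal
        rw [mul_comm]
        gcongr
    _ = _ := by
        rw [ENNReal.ofReal_mul (Nat.cast_nonneg _), ENNReal.ofReal_natCast]

/-- The rounded positions are constant on measurable sets of times. -/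
lemma measurableSet_eq {d : ℕ} {ι : Type} (u v : ι → Fin d → ℝ) (J : ℕ) (i i' : ι) :
    MeasurableSet {t : ℝ | Xp u v t J i = Xp u v t J i'} := by
  have h1 : ∀ i, Measurable fun t : ℝ => Xp u v t J i := by
    intro i
    refine (measurable_fl J).comp ?_
    rw [measurable_pi_iff]
    intro l
    exact measurable_const.add (measurable_id.mul_const _)
  exact measurableSet_eq_fun (h1 i) (h1 i')

/-- The distance to the axis. -/
lemma mem_tube {d : ℕ} {δ : ℝ} {J : ℕ} (hδ : 0 < δ) (hδ1 : δ < 1)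
    (hJ : ((2 : ℝ) ^ J)⁻¹ ≤ 1 / (8 * ((d : ℝ) + 1)) * δ) {k : Fin (d + 1)} {c e x : E d}
    (hu : ‖e‖ = 1) (hM : Mx k e) (hh : |x k - c k| ≤ 1 / (4 * ((d : ℝ) + 1)))
    (hx : fl J (fun l => x (k.succAbove l)) = fl J (psl k c e (x k))) : x ∈ tube δ c e := by
  obtain ⟨η, hη⟩ : ∃ η, η = ((2 : ℝ) ^ J)⁻¹ := ⟨_, rfl⟩
  have hη0 : 0 < η := by rw [hη]; positivity
  have h2J : (0 : ℝ) < 2 ^ J := by positivity
  rw [← hη] at hJ
  have hd1 : (0 : ℝ) < (d : ℝ) + 1 := by positivity
  -- the axis point
  have key : ∀ f : E d, ‖f‖ = 1 → 1 / ((d : ℝ) + 1) ≤ f k → psl k c f (x k) = psl k c e (x k) →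
      x ∈ tube δ c f := by
    intro f hf hfk hpsl
    have h0 : f k ≠ 0 := by
      have : 0 < f k := lt_of_lt_of_le (by positivity) hfk
      exact this.ne'
    have hb := Pool.Agent.H32.AKT.ball_subset (j := k) (c := c) (h := x k) (θ := 1 / ((d : ℝ) + 1))
      hf hδ hδ1 (by positivity) hfk (by
        refine hh.trans (le_of_eq ?_)
        field_simp)
    apply hb
    rw [Metric.mem_ball, dist_eq_norm]
    have h1 : ‖x - Pool.Agent.H32.AKT.pos k c f (x k)‖ ≤ ((d + 1 : ℕ) : ℝ) * η := by
      refine Pool.Agent.H32.AKT.norm_le_of_coord hη0.le fun r => ?_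
      rcases Fin.eq_self_or_eq_succAbove k r with hr | ⟨l, hl⟩
      · rw [hr, PiLp.sub_apply, Pool.Agent.H32.AKT.pos_height h0, sub_self, abs_zero]
        exact hη0.le
      · have h2 : ⌊2 ^ J * x (k.succAbove l)⌋ = ⌊2 ^ J * psl k c e (x k) l⌋ := congrFun hx l
        have h3 := Int.abs_sub_lt_one_of_floor_eq_floor h2
        rw [← mul_sub, abs_mul, abs_of_pos h2J] at h3
        have h4 : Pool.Agent.H32.AKT.pos k c f (x k) (k.succAbove l) = psl k c e (x k) l := by
          rw [← hpsl]
          simp only [Pool.Agent.H32.AKT.pos, PiLp.add_apply, PiLp.smul_apply, smul_eq_mul, psl, slp]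
          ring
        rw [hl, PiLp.sub_apply, h4, hη, ← one_div, le_div_iff₀ h2J]
        linarith
    have h5 : ((d + 1 : ℕ) : ℝ) * η ≤ δ / 8 := by
      push_cast
      calc ((d : ℝ) + 1) * η ≤ ((d : ℝ) + 1) * (1 / (8 * ((d : ℝ) + 1)) * δ) := by gcongr
        _ = δ / 8 := by field_simp
    linarith
  rcases lt_or_ge 0 (e k) with hpos | hneg
  · refine key e hu ?_ rfl
    have := hM.pos hu
    rwa [abs_of_pos hpos] at this
  · have h1 : tube δ c e = tube δ c (-e) := (Pool.Agent.H32.AKT.tube_neg δ c e).symm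
    rw [h1]
    refine key (-e) (by rw [norm_neg, hu]) ?_ ?_
    · have := hM.pos hu
      rw [abs_of_nonpos hneg] at this
      rwa [PiLp.neg_apply]
    · funext l
      simp only [psl, slp, PiLp.neg_apply, neg_div_neg_eq]

/-- Jensen. -/
lemma jensen {F : ℝ → ℝ} (hF : IntervalIntegrable F volume 0 1)
    (hE : IntervalIntegrable (fun s => Real.exp (F s)) volume 0 1) :
    Real.exp (∫ s in (0 : ℝ)..1, F s) ≤ ∫ s in (0 : ℝ)..1, Real.exp (F s) := by
  obtain ⟨m, hm⟩ : ∃ m, m = ∫ s in (0 : ℝ)..1, F s := ⟨_, rfl⟩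
  rw [← hm]
  have h1 : ∫ s in (0 : ℝ)..1, Real.exp m * (1 + (F s - m)) ≤ ∫ s in (0 : ℝ)..1, Real.exp (F s) := by
    refine intervalIntegral.integral_mono_on (by norm_num) ?_ hE ?_
    · exact (intervalIntegrable_const.add (hF.sub intervalIntegrable_const)).const_mul _
    · intro s _
      have h2 := Real.add_one_le_exp (F s - m)
      have h3 : Real.exp (F s) = Real.exp m * Real.exp (F s - m) := by
        rw [← Real.exp_add]; congr 1; ring
      rw [h3]
      have := Real.exp_pos m
      nlinarith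
  have h2 : ∫ s in (0 : ℝ)..1, Real.exp m * (1 + (F s - m)) = Real.exp m := by
    rw [intervalIntegral.integral_const_mul,
      intervalIntegral.integral_add intervalIntegrable_const (hF.sub intervalIntegrable_const),
      intervalIntegral.integral_sub hF intervalIntegrable_const, ← hm]
    simp
  rw [h2] at h1
  exact h1

/-- The coordinate map. -/
noncomputable def T {d : ℕ} (k : Fin (d + 1)) (x : E d) : ℝ × (Fin d → ℝ) :=
  (x k, fun l => x (k.succAbove l))

lemma measurePreserving_T {d : ℕ} (k : Fin (d + 1)) :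
    MeasurePreserving (T k : E d → ℝ × (Fin d → ℝ)) volume volume := by
  have h3 := EuclideanSpace.volume_preserving_symm_measurableEquiv_toLp (Fin (d + 1))
  have h4 := volume_preserving_piFinSuccAbove (fun _ : Fin (d + 1) => ℝ) k
  exact h4.comp h3

end TVL

open TVL in
theorem tvl_thm : TVLStmt := by
  classical
  intro d
  have hm0 := hm_pos d
  refine ⟨hm d, hm0, 1 / (8 * ((d : ℝ) + 1)), by positivity, ?_⟩
  intro δ J hδ hδ1 hJ ι _ c e k g q hC p hp
  obtain ⟨η, hη⟩ : ∃ η, η = (((2 : ℝ) ^ J)⁻¹) ^ d := ⟨_, rfl⟩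
  have hη0 : 0 < η := by rw [hη]; positivity
  rw [← hη]
  set X : ℝ → ι → Fin d → ℤ := fun s => Xp (uT k g c e) (dT k e) s J with hX
  have hXm : ∀ i i', MeasurableSet {t | X t i = X t i'} := fun i i' => measurableSet_eq _ _ J i i'
  obtain ⟨hHm, hHi⟩ := mea_thm ι (Fin d → ℤ) p hp X hXm
  -- integrability of the exponential
  have hHb : ∀ t, Real.exp (H p (X t)) ≤ Fintype.card ι := by
    intro t
    have h4 := H_le_log_card hp.nonneg hp.sum_one (X t) (Finset.univ.image (X t))
      (fun ω _ => Finset.mem_image_of_mem _ (Finset.mem_univ ω))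
    have hne : Nonempty ι := by
      by_contra hcon
      rw [not_nonempty_iff] at hcon
      have h8 := hp.sum_one
      rw [Finset.univ_eq_empty, Finset.sum_empty] at h8
      exact zero_ne_one h8
    have h5 : (0 : ℝ) < ((Finset.univ.image (X t)).card : ℝ) := by
      have : (Finset.univ.image (X t)).Nonempty := Finset.univ_nonempty.image _
      exact_mod_cast this.card_pos
    rw [Real.le_log_iff_exp_le h5] at h4
    exact h4.trans (by exact_mod_cast Finset.card_image_le)
  have hEm : Measurable fun t => Real.exp (H p (X t)) := Real.measurable_exp.comp hHm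
  have hEi : ∀ a b : ℝ, IntervalIntegrable (fun t => Real.exp (H p (X t))) volume a b := by
    intro a b
    rw [intervalIntegrable_iff]
    refine Measure.integrableOn_of_bounded (M := Fintype.card ι) (by simp [Set.uIoc])
      hEm.aestronglyMeasurable (Filter.Eventually.of_forall fun t => ?_)
    rw [Real.norm_of_nonneg (Real.exp_pos _).le]
    exact hHb t
  -- the set in coordinates
  obtain ⟨a, ha⟩ : ∃ a, a = (g : ℝ) * hm d := ⟨_, rfl⟩
  obtain ⟨b, hb⟩ : ∃ b, b = ((g : ℝ) + 1) * hm d := ⟨_, rfl⟩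
  have hab : a < b := by rw [ha, hb]; nlinarith
  set B : Set (ℝ × (Fin d → ℝ)) :=
    {z | (a < z.1 ∧ z.1 < b) ∧ ∃ i, fl J z.2 = X (z.1 / hm d - g) i} with hB
  have hBm : MeasurableSet B := by
    have h1 : MeasurableSet {z : ℝ × (Fin d → ℝ) | a < z.1 ∧ z.1 < b} :=
      (measurableSet_lt measurable_const measurable_fst).inter
        (measurableSet_lt measurable_fst measurable_const)
    have h2 : MeasurableSet {z : ℝ × (Fin d → ℝ) | ∃ i, fl J z.2 = X (z.1 / hm d - g) i} := by
      have h3 : {z : ℝ × (Fin d → ℝ) | ∃ i, fl J z.2 = X (z.1 / hm d - g) i} =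
          ⋃ i, {z : ℝ × (Fin d → ℝ) | fl J z.2 = X (z.1 / hm d - g) i} := by
        ext z
        simp
      rw [h3]
      refine MeasurableSet.iUnion fun i => ?_
      refine measurableSet_eq_fun ((measurable_fl J).comp measurable_snd) ?_
      refine (measurable_fl J).comp ?_
      rw [measurable_pi_iff]
      intro l
      exact measurable_const.add (((measurable_fst.div_const _).sub_const _).mul_const _)
    exact h1.inter h2
  -- the set is contained in the union
  have hsub : T k ⁻¹' B ⊆ (⋃ i, tube δ (c i) (e i)) ∩ sl k g := by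
    intro x hx
    obtain ⟨⟨h1, h2⟩, i, hi⟩ := hx
    simp only [T] at h1 h2 hi
    rw [ha] at h1
    rw [hb] at h2
    refine ⟨Set.mem_iUnion.mpr ⟨i, ?_⟩, h1.le, h2⟩
    refine mem_tube hδ hδ1 hJ (hC.unit i) (hC.mx i) ?_ ?_
    · have h3 := hC.ht i
      have h4 : ⌊c i k / hm d⌋ = g + 1 := by omega
      rw [Int.floor_eq_iff] at h4
      push_cast at h4
      obtain ⟨h5, h6⟩ := h4
      rw [le_div_iff₀ hm0] at h5
      rw [div_lt_iff₀ hm0] at h6
      have h7 : 1 / (4 * ((d : ℝ) + 1)) = 2 * hm d := by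
        rw [hm]; field_simp; norm_num
      rw [h7, abs_le]
      constructor <;> nlinarith
    · rw [hi]
      show fl J (pt (uT k g c e) (dT k e) (x k / hm d - g) i) = _
      congr 1
      funext l
      simp only [pt, uT, dT, psl]
      field_simp
      ring
  have hv1 : volume B ≤ volume ((⋃ i, tube δ (c i) (e i)) ∩ sl k g) := by
    rw [← (measurePreserving_T k).measure_preimage hBm.nullMeasurableSet]
    exact measure_mono hsub
  refine le_trans ?_ hv1
  -- Fubini
  have hv2 : volume B = ∫⁻ h, volume (Prod.mk h ⁻¹' B) := by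
    rw [Measure.volume_eq_prod, Measure.prod_apply hBm]
  rw [hv2]
  obtain ⟨G, hG⟩ : ∃ G : ℝ → ℝ, G = fun h => η * Real.exp (H p (X (h / hm d - g))) := ⟨_, rfl⟩
  have hv3 : ∫⁻ h in Set.Ioo a b, ENNReal.ofReal (G h) ≤ ∫⁻ h, volume (Prod.mk h ⁻¹' B) := by
    rw [← lintegral_indicator measurableSet_Ioo]
    refine lintegral_mono fun h => ?_
    by_cases hh : h ∈ Set.Ioo a b
    · rw [Set.indicator_of_mem hh, hG]
      refine (hη ▸ volume_slice hp J (X (h / hm d - g))).trans (measure_mono ?_)
      intro y hy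
      exact ⟨hh, hy⟩
    · rw [Set.indicator_of_notMem hh]
      exact zero_le
  refine le_trans ?_ hv3
  have hGi : IntegrableOn G (Set.Ioo a b) := by
    have h1 : IntervalIntegrable G volume a b := by
      rw [hG]
      refine IntervalIntegrable.const_mul ?_ _
      rw [intervalIntegrable_iff]
      refine Measure.integrableOn_of_bounded (M := Fintype.card ι) (by simp [Set.uIoc])
        (hEm.comp ((measurable_id.div_const _).sub_const _)).aestronglyMeasurable
        (Filter.Eventually.of_forall fun t => ?_)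
      show ‖Real.exp (H p (X (t / hm d - g)))‖ ≤ _
      rw [Real.norm_of_nonneg (Real.exp_pos _).le]
      exact hHb _
    rw [intervalIntegrable_iff_integrableOn_Ioo_of_le hab.le] at h1
    exact h1
  rw [← ofReal_integral_eq_lintegral_ofReal hGi (Filter.Eventually.of_forall fun h => by
    rw [hG]; positivity)]
  apply ENNReal.ofReal_le_ofReal
  rw [← integral_Ioc_eq_integral_Ioo, ← intervalIntegral.integral_of_le hab.le]
  have h5 : ∫ h in a..b, G h = hm d * (η * ∫ s in (0 : ℝ)..1, Real.exp (H p (X s))) := by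
    rw [hG]
    rw [intervalIntegral.integral_comp_div_sub (fun s => η * Real.exp (H p (X s))) hm0.ne' (g : ℝ)]
    have h6 : a / hm d - g = 0 := by rw [ha]; field_simp; ring
    have h7 : b / hm d - g = 1 := by rw [hb]; field_simp; ring
    rw [h6, h7, intervalIntegral.integral_const_mul, smul_eq_mul]
  rw [h5, mul_assoc]
  have h8 := jensen (hHi 0 1) (hEi 0 1)
  gcongr

end Pool.STK
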